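import Pool.Agent.W603.CX.Cond

/-!
Entire curves, pointed maps and boundedness for quasi-projective varieties given by few monomials
that are high powers up to units.
-/

set_option autoImplicit false

namespace Pool.Agent.Results.MP_c69980_ag.BoundednessPowerSparse

open MvPolynomial Pool.Agent.H159R3.GGLLog Pool.Agent.W603.CX

/-- Let `X` be an irreducible quasi-projective variety over the complex numbers given by finitely
many homogeneous equations `F i = 0` and the inequations `x_j ≠ 0`, `j ∈ U`, in projective
`n`-space, such that the exponents of the `x_j`, `j ∉ U`, in `F i` are multiples of some number at
least the square of the number of monomials of `F i` minus one. The following are equivalent: all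
entire curves in `X` lie in a proper closed subset; outside a proper closed subset there are only
finitely many pointed maps from the multiplicative group; `X` is bounded modulo a proper closed
subset; the degrees of maps from curves `C` to `X` with image not in a certain proper closed subset
are at most `B max (2 g - 2 + |S|, 0)`, where `S` is the boundary of `C` and `B` depends only
on `X`. -/
theorem result {n : ℕ} {ι : Type} [Finite ι] (U : Set (Fin (n + 1)))
    (F : ι → MvPolynomial (Fin (n + 1)) ℂ) (hF : ∀ i, ∃ d, (F i).IsHomogeneous d)
    (hC : ∀ i, Pool.Agent.H159R3.GGLLog.PowerSparse U (F i))
    (hirr : Pool.Agent.H159R3.GGLLog.Irred U F) :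
    [PseudoBrody U F, FewPointedMaps U F, BoundedModulo U F, LinearlyBounded U F].TFAE :=
  tfae U F hF hC hirr

end Pool.Agent.Results.MP_c69980_ag.BoundednessPowerSparse
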