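import Pool.Agent.W602.RG.TA

/-!
MP_c69980_ag, Q1: pointed maps, log general type, entire curves and boundedness for quasi-projective
varieties given by few monomials that are high powers.
-/

set_option autoImplicit false

namespace Pool.Agent.Results.MP_c69980_ag.PointedCurves

open Pool.Agent.W602.RG Pool.Agent.W602.GT Pool.Agent.W603.CX Pool.Agent.W603.BP
open Pool.Agent.H159R3.GGLLog (PseudoBrody)

/-- Let `X` be an irreducible quasi-projective variety of positive dimension, the part `x_j ≠ 0`
(`j` in `U`) of a projective variety given by forms with at most `s` monomials in which the exponents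
of the other variables are divisible by large numbers. The following are equivalent: the entire
curves in `X` are contained in a proper closed subset; outside a proper closed subset, there are
only finitely many morphisms from every affine variety `Y` to `X` with a given value at a given point
of `Y`; `X` is of log general type; the morphisms from every curve to `X` that are not contained in
some proper closed subset have bounded degree; the same with a linear bound. -/
theorem result {n : ℕ} {ι : Type} [Finite ι] (U : Set (Fin (n + 1)))
    (F : ι → MvPolynomial (Fin (n + 1)) ℂ) {s N : ℕ} (hF : ∀ e, IsPowSparse U s N (F e))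
    (hN : 1 ≤ N) (hsN : (s - 1) ^ 2 ≤ N) (hnN : n * ((s + 1) * ((s - 1) * (s - 2) / 2)) ≤ N)
    (hirr : Pool.Agent.H159R3.GGLLog.Irred U F) {K : Type} [Field K] [Algebra ℂ K] {w : ℕ}
    {y : Fin (n + 1) → K} (hw : 1 ≤ w) (hy : SubVarU U F K w y) (hgen : GenericU U F y) :
    [PseudoBrody U F, FewPointedMorphisms U F, LogGeneralType ℂ K w (OffU U y),
      BoundedModulo U F, LinearlyBounded U F].TFAE := by
  have h0 := equivalent_conditions U F hF (by
    have h : tn (s - 1) = (s - 1) * (s - 2) / 2 := by
      unfold tn
      rw [Fin.sum_univ_eq_sum_range (fun i => i), Finset.sum_range_id, Nat.sub_sub]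
    rw [h]
    exact hnN) (fun e => by
    obtain ⟨-, h1, N', h2, h3⟩ := hF e
    refine ⟨N', by omega, ?_, h3⟩
    have h4 : (F e).support.card - 1 ≤ s - 1 := by omega
    exact ((Nat.pow_le_pow_left h4 2).trans hsN).trans h2) hirr hw hy hgen
  tfae_have 1 ↔ 2 := h0.out 0 1
  tfae_have 1 ↔ 3 := h0.out 0 3
  tfae_have 1 ↔ 4 := h0.out 0 4
  tfae_have 1 ↔ 5 := h0.out 0 5
  tfae_finish

end Pool.Agent.Results.MP_c69980_ag.PointedCurves
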