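import Mathlib
import Pool.Agent.W603.CY.Special

/-!
Entire curves, pointed maps, boundedness and log general type for quasi-projective varieties given
by sums of few powers of linear forms, with any number of boundary divisors.
-/

set_option autoImplicit false

namespace Pool.Agent.Results.MP_c69980_ag.WaringConditions

open FF MvPolynomial Pool.Agent.H159R3.War Pool.Agent.H159R3.WarLog Pool.Agent.W603.GW
  Pool.Agent.W603.GX Pool.Agent.W603.GY Pool.Agent.W602.GT Pool.Agent.W603.CXQ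
  Pool.Agent.W603.LV Pool.Agent.W603.PV

theorem result {n : ℕ} {ι κ : Type} [Finite κ] (F : ι → MvPolynomial (Fin (n + 1)) ℂ)
    (Q : κ → MvPolynomial (Fin (n + 1)) ℂ) (hF : ∀ i, SmallWaring (F i))
    (hQ : ∀ j, ∃ d, SmallWaringLog (Q j) d) :
    -- a linear bound for the degrees of all maps with image outside the special locus
    (∃ B : ℕ, ∀ (L : Type) [Field L] [Algebra ℂ L] [IsFF ℂ L] (S : Finset (Place ℂ L))
      (f : Fin (n + 1) → L), IsMap F Q S f →
      (∃ G : MvPolynomial (Fin (n + 1)) ℂ, (∃ e, G.IsHomogeneous e) ∧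
        (∀ x ∈ gmPoints F Q, eval x G = 0) ∧ aeval f G ≠ 0) →
      pht ℂ f ≤ B * max (canDeg ℂ L + S.card) 0) ∧
    -- the conditions
    [PseudoBrody F Q, FewPointedMaps F Q, BoundedModulo F Q, LinearlyBounded F Q,
      gmPoints F Q ≠ Pts F Q].TFAE ∧
    -- log general type
    ∀ (K : Type) [Field K] [Algebra ℂ K] (w : ℕ) (y : Fin (n + 1) → K),
      SubVarQ F Q K w y → GenericQ F Q y →
      (LogGeneralType ℂ K w (OffAny Q y) → LinearlyBounded F Q) ∧
      ∀ S N : ℕ, (∀ i, IsPowSum S N (F i)) → (∀ j, IsPowSum (S - 1) N (Q j)) → 1 ≤ N →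
        n * ((S + 1) * ((S - 1) * (S - 2) / 2)) ≤ N →
        (LogGeneralType ℂ K w (OffAny Q y) ↔ LinearlyBounded F Q) := by
  have h1 := Pool.Agent.W603.CY.tfae hF hQ
  have h2 := Pool.Agent.W603.CY.brody_iff_ne hF hQ
  have h3 : PseudoBrody F Q ↔ LinearlyBounded F Q := h1.out 0 3
  refine ⟨Pool.Agent.W603.CY.bound_special hF hQ, ?_, fun K _ _ w y hy hg => ⟨fun h => ?_,
    fun S N hF' hQ' hN1 hN => ⟨fun h => ?_, fun h => ?_⟩⟩⟩
  · tfae_have 1 ↔ 2 := h1.out 0 1
    tfae_have 1 ↔ 3 := h1.out 0 2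
    tfae_have 1 ↔ 4 := h3
    tfae_have 1 ↔ 5 := h2
    tfae_finish
  · exact h3.1 (h2.2 (ne_of_lgt hF hQ hy hg h))
  · exact h3.1 (h2.2 (ne_of_lgt hF hQ hy hg h))
  · exact lgt_of_gm_ne hF hQ hF' hQ' hN1 hN (h2.1 (h3.2 h)) hy hg

end Pool.Agent.Results.MP_c69980_ag.WaringConditions
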